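import Pool.Agent.H85.LK.Targets

/-!
# Elementary properties of the profile (module CHP)
-/

open MeasureTheory ProbabilityTheory Filter Topology Set

namespace Pool.Agent.H31.LK

open Pool.Agent.H85.LK

private noncomputable def pf (b l z : ℝ) : ℝ := Real.exp (z ^ 2 / 4) * ((z - b) * (b + l - z))

private noncomputable def pd (b l z : ℝ) : ℝ :=
  Real.exp (z ^ 2 / 4) * ((b + l - z) - (z - b) + z / 2 * ((z - b) * (b + l - z)))

private lemma cont_pf (b l : ℝ) : Continuous (pf b l) := by
  unfold pf
  fun_prop

private lemma cont_pd (b l : ℝ) : Continuous (pd b l) := by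
  unfold pd
  fun_prop

private lemma der_pf (b l z : ℝ) : HasDerivAt (pf b l) (pd b l z) z := by
  have h1 : HasDerivAt (fun z : ℝ => Real.exp (z ^ 2 / 4)) (Real.exp (z ^ 2 / 4) * (2 * z / 4)) z := by
    have h2 : HasDerivAt (fun z : ℝ => z ^ 2 / 4) (2 * z / 4) z := by
      have := (hasDerivAt_pow 2 z).div_const 4
      simpa using this
    exact h2.exp
  have h3 : HasDerivAt (fun z : ℝ => (z - b) * (b + l - z)) (1 * (b + l - z) + (z - b) * (0 - 1)) z :=
    ((hasDerivAt_id z).sub_const b).mul ((hasDerivAt_const z (b + l)).sub (hasDerivAt_id z))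
  have h4 := h1.mul h3
  have h5 : Real.exp (z ^ 2 / 4) * (2 * z / 4) * ((z - b) * (b + l - z)) +
      Real.exp (z ^ 2 / 4) * (1 * (b + l - z) + (z - b) * (0 - 1)) = pd b l z := by
    unfold pd
    ring
  rw [h5] at h4
  exact h4

private lemma chi_eq (b l z : ℝ) (hl : 0 < l) : chi b l z = pf b l (max b (min z (b + l))) := by
  unfold chi
  split_ifs with h
  · rw [min_eq_left h.2, max_eq_right h.1]
    rfl
  · unfold pf
    by_cases h1 : b ≤ z
    · have h2 : b + l < z := by
        by_contra h3
        exact h ⟨h1, not_lt.1 h3⟩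
      rw [min_eq_right h2.le, max_eq_right (by linarith)]
      ring
    · rw [min_eq_left (by linarith), max_eq_left (by linarith)]
      ring

private lemma cont_chi (b l : ℝ) (hl : 0 < l) : Continuous (chi b l) := by
  have : chi b l = fun z => pf b l (max b (min z (b + l))) := funext fun z => chi_eq b l z hl
  rw [this]
  exact (cont_pf b l).comp (continuous_const.max (continuous_id.min continuous_const))

private lemma der_chi (b l x : ℝ) (h1 : x ≠ b) (h2 : x ≠ b + l) :
    HasDerivAt (chi b l) (dchi b l x) x := by
  by_cases hx : b ≤ x ∧ x ≤ b + l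
  · have hx1 : b < x := lt_of_le_of_ne hx.1 h1.symm
    have hx2 : x < b + l := lt_of_le_of_ne hx.2 h2
    have h3 : dchi b l x = pd b l x := by
      unfold dchi pd
      rw [if_pos hx]
    rw [h3]
    refine (der_pf b l x).congr_of_eventuallyEq ?_
    filter_upwards [Ioo_mem_nhds hx1 hx2] with y hy
    unfold chi pf
    rw [if_pos ⟨hy.1.le, hy.2.le⟩]
  · have h3 : dchi b l x = 0 := by
      unfold dchi
      rw [if_neg hx]
    rw [h3]
    refine (hasDerivAt_const x (0 : ℝ)).congr_of_eventuallyEq ?_
    by_cases h4 : b ≤ x
    · have h5 : b + l < x := by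
        by_contra h6
        exact hx ⟨h4, not_lt.1 h6⟩
      filter_upwards [Ioi_mem_nhds h5] with y hy
      unfold chi
      rw [if_neg]
      rintro ⟨_, h7⟩
      exact absurd hy (not_lt.2 h7)
    · filter_upwards [Iio_mem_nhds (not_le.1 h4)] with y hy
      unfold chi
      rw [if_neg]
      rintro ⟨h7, _⟩
      exact absurd hy (not_lt.2 h7)

theorem pf_CHP : T_CHP := by
  intro b l hb hl
  have hset : MeasurableSet {z : ℝ | b ≤ z ∧ z ≤ b + l} := measurableSet_Icc
  have hm1 : Measurable (chi b l) := (cont_chi b l hl).measurable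
  have hm2 : Measurable (dchi b l) := Measurable.ite hset (cont_pd b l).measurable measurable_const
  obtain ⟨M1, hM1⟩ := (isCompact_Icc (a := b) (b := b + l)).exists_bound_of_continuousOn
    (cont_pf b l).continuousOn
  obtain ⟨M2, hM2⟩ := (isCompact_Icc (a := b) (b := b + l)).exists_bound_of_continuousOn
    (cont_pd b l).continuousOn
  set M : ℝ := max 0 (max M1 M2) with hM
  have hb1 : ∀ z, chi b l z ≤ M := by
    intro z
    unfold chi
    split_ifs with h
    · have := hM1 z h
      rw [Real.norm_eq_abs] at this
      exact (le_abs_self _).trans (this.trans ((le_max_left _ _).trans (le_max_right _ _)))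
    · exact le_max_left _ _
  have hb2 : ∀ z, |dchi b l z| ≤ M := by
    intro z
    unfold dchi
    split_ifs with h
    · have := hM2 z h
      rw [Real.norm_eq_abs] at this
      exact this.trans ((le_max_right _ _).trans (le_max_right _ _))
    · rw [abs_zero]
      exact le_max_left _ _
  refine ⟨hm1, hm2, ?_, ?_, ⟨M, fun z => ⟨hb1 z, hb2 z⟩⟩, ?_⟩
  · intro z
    unfold chi
    split_ifs with h
    · have h1 : 0 ≤ (z - b) * (b + l - z) := mul_nonneg (by linarith [h.1]) (by linarith [h.2])
      positivity
    · exact le_rfl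
  · intro z hz
    unfold chi at hz
    split_ifs at hz with h
    · refine ⟨lt_of_le_of_ne h.1 ?_, lt_of_le_of_ne h.2 ?_⟩
      · intro h1
        apply hz
        rw [← h1]
        ring
      · intro h1
        apply hz
        rw [h1]
        ring
    · exact absurd rfl hz
  · intro z z'
    have hint : IntervalIntegrable (dchi b l) volume z' z := by
      rw [intervalIntegrable_iff]
      refine Measure.integrableOn_of_bounded (M := M) ?_ hm2.aestronglyMeasurable
        (Filter.Eventually.of_forall fun t => ?_)
      · rw [uIoc]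
        exact measure_Ioc_lt_top.ne
      · rw [Real.norm_eq_abs]
        exact hb2 t
    have h1 := MeasureTheory.integral_eq_of_hasDerivAt_off_countable (chi b l) (dchi b l)
      (a := z') (b := z) (s := {b, b + l}) (Set.Countable.insert _ (Set.countable_singleton _))
      (cont_chi b l hl).continuousOn (fun x hx => by
        have h2 := hx.2
        simp only [Set.mem_insert_iff, Set.mem_singleton_iff, not_or] at h2
        exact der_chi b l x h2.1 h2.2) hint
    exact h1.symm

end Pool.Agent.H31.LK
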